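import Pool.Agent.Lib.MP_c009e6_co.Final

/-!
# The packing density of the regular 37-gon, and a densest packing

`P37` is the regular 37-gon with centre `0`, inradius `1` and circumradius `1 / cos (π/37)`, with a
vertex on the positive real axis.

* `hst = (2 cos (12π/37) - 2 cos (24π/37) + l cos (12π/37) cos (24π/37)) / sin (12π/37) ≈ 1.73344`,
  with `l = 1 + 1 / cos (π/37) ≈ 2.00362`;
* `Xst = (2 - hst sin (12π/37)) / cos (12π/37) ≈ 0.99926`;
* `dens = 37 tan (π/37) / (l hst) ≈ 0.90672`;
* `best` consists of the translates `P37 + (m l, 2 n hst)` and of the point reflected copies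
  `(-Xst + m l, (2 n + 1) hst) - P37`, for `m, n ∈ ℤ`.

Neighbouring copies in a row touch: a vertex of one copy is the midpoint of an edge of the next one.
-/

namespace Pool.Agent.Results.MP_c009e6_co.PackingDensity

open MeasureTheory Filter Topology Pool.Agent.Lib.P37

/-- The packing density of the regular 37-gon is `dens`, and the packing `best` attains it. -/
theorem result :
    (∀ (ι : Type) (f : ι → ℂ ≃ᵢ ℂ), IsPacking f → upperDensity f ≤ dens) ∧
    IsPacking best ∧ Tendsto (ratio best) atTop (𝓝 dens) ∧ upperDensity best = dens ∧
    packingDensity = dens ∧ 0.906715 < dens ∧ dens < 0.906716 :=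
  ⟨fun _ f hf => upper_bound f hf, best_is_packing, best_tendsto, best_upper, density_eq,
    dens_bounds.1, dens_bounds.2⟩

end Pool.Agent.Results.MP_c009e6_co.PackingDensity
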